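import Pool.Agent.Helper66.BO.St2

/-!
Proof of THP (numeric bound for the entries of a row, THEOREM P).
-/

namespace Pool.Agent.Helper68.BO

open Pool.Agent.Helper66.BO

/-- geometric tail with ratio at most 0.7072 -/
theorem geo_tail (n : ℕ) : ∑ e ∈ Finset.range n, (√(1 / 2 : ℝ)) ^ e ≤ 3.42 := by
  have h0 : (0 : ℝ) ≤ √(1 / 2 : ℝ) := Real.sqrt_nonneg _
  have h1 : √(1 / 2 : ℝ) ≤ 0.7072 := by
    rw [Real.sqrt_le_left (by norm_num)]
    norm_num
  have h2 : √(1 / 2 : ℝ) < 1 := by linarith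
  have h3 : ∑ e ∈ Finset.range n, (√(1 / 2 : ℝ)) ^ e ≤ (1 - √(1 / 2 : ℝ))⁻¹ := by
    have hs := summable_geometric_of_lt_one h0 h2
    rw [← tsum_geometric_of_lt_one h0 h2]
    exact hs.sum_le_tsum _ (fun e _ => pow_nonneg h0 e)
  refine h3.trans ?_
  rw [inv_le_comm₀ (by linarith) (by norm_num)]
  linarith

theorem sum_min (l : ℝ) (hl : 1 ≤ l) (m : ℕ) :
    ∑ e ∈ Finset.range m, min 1 √(l / 2 ^ e) ≤ 2 * Real.log l + 6 := by
  have hlog : 0 ≤ Real.log l := Real.log_nonneg hl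
  have hlog2 : 0.6931471803 < Real.log 2 := Real.log_two_gt_d9
  set p : ℕ := ⌈Real.log l / Real.log 2⌉₊ with hp
  have hq : 0 ≤ Real.log l / Real.log 2 := by positivity
  have hp1 : Real.log l / Real.log 2 ≤ p := Nat.le_ceil _
  have hp2 : (p : ℝ) < Real.log l / Real.log 2 + 1 := Nat.ceil_lt_add_one hq
  have hlp : l ≤ 2 ^ p := by
    have h1 : Real.log l ≤ p * Real.log 2 := by
      rwa [div_le_iff₀ (by linarith)] at hp1
    rw [← Real.log_pow] at h1
    exact (Real.log_le_log_iff (by linarith) (by positivity)).mp h1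
  have hg0 : ∀ e : ℕ, 0 ≤ min 1 √(l / 2 ^ e) := fun e => le_min zero_le_one (Real.sqrt_nonneg _)
  have h1 : ∑ e ∈ Finset.range m, min 1 √(l / 2 ^ e) ≤
      ∑ e ∈ Finset.range (p + m), min 1 √(l / 2 ^ e) := by
    refine Finset.sum_le_sum_of_subset_of_nonneg ?_ (fun e _ _ => hg0 e)
    intro e he
    rw [Finset.mem_range] at he ⊢
    omega
  have h2 : ∑ e ∈ Finset.range p, min 1 √(l / 2 ^ e) ≤ p := by
    refine (Finset.sum_le_sum (fun e _ => min_le_left (1 : ℝ) _)).trans ?_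
    simp
  have h3 : ∑ e ∈ Finset.range m, min 1 √(l / 2 ^ (p + e)) ≤ 3.42 := by
    refine le_trans (Finset.sum_le_sum (fun e _ => ?_)) (geo_tail m)
    refine (min_le_right _ _).trans ?_
    have e1 : (√(1 / 2 : ℝ)) ^ e = √((1 / 2 : ℝ) ^ e) := by
      rw [Real.sqrt_eq_rpow, Real.sqrt_eq_rpow, ← Real.rpow_natCast, ← Real.rpow_natCast,
        ← Real.rpow_mul (by norm_num), ← Real.rpow_mul (by norm_num), mul_comm]
    rw [e1]
    refine Real.sqrt_le_sqrt ?_
    rw [div_le_iff₀ (by positivity), pow_add]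
    have e2 : (1 / 2 : ℝ) ^ e * (2 ^ p * 2 ^ e) = 2 ^ p := by
      rw [one_div, inv_pow]
      field_simp
    rw [e2]
    exact hlp
  rw [Finset.sum_range_add] at h1
  have h4 : Real.log l / Real.log 2 ≤ 2 * Real.log l := by
    rw [div_le_iff₀ (by linarith)]
    nlinarith
  linarith

theorem thp_proof : THP := by
  intro m s0 τ Y hm hs0 hτ hY
  set l : ℝ := Real.log (1 + s0 * 2 ^ m) with hl
  have hpm : (1 : ℝ) ≤ 2 ^ m := one_le_pow₀ (by norm_num)
  have hl1 : 1 ≤ l := by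
    rw [hl, Real.le_log_iff_exp_le (by positivity)]
    have := Real.exp_one_lt_d9
    nlinarith
  have hex : ∃ r : ℕ, Y < s0 * 2 ^ r := by
    obtain ⟨r, hr⟩ := pow_unbounded_of_one_lt Y (one_lt_two (α := ℝ))
    refine ⟨r, hr.trans_le ?_⟩
    have : (0 : ℝ) < 2 ^ r := by positivity
    nlinarith
  classical
  set r := Nat.find hex with hr
  have hr1 : Y < s0 * 2 ^ r := Nat.find_spec hex
  have hr2 : ∀ x : ℕ, Y < s0 * 2 ^ x → r ≤ x := fun x hx => Nat.find_min' hex hx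
  rw [Fin.sum_univ_eq_sum_range (fun x => if Y < s0 * 2 ^ x then
    min (√τ) √(Y * τ * Real.log (1 + s0 * 2 ^ x) / (s0 * 2 ^ x)) else 0) m]
  have hg0 : ∀ e : ℕ, 0 ≤ √τ * min 1 √(l / 2 ^ e) := fun e =>
    mul_nonneg (Real.sqrt_nonneg _) (le_min zero_le_one (Real.sqrt_nonneg _))
  have hterm : ∀ x ∈ Finset.range m, (if Y < s0 * 2 ^ x then
      min (√τ) √(Y * τ * Real.log (1 + s0 * 2 ^ x) / (s0 * 2 ^ x)) else 0) ≤
      if r ≤ x then √τ * min 1 √(l / 2 ^ (x - r)) else 0 := by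
    intro x hx
    rw [Finset.mem_range] at hx
    by_cases h : Y < s0 * 2 ^ x
    · have hrx := hr2 x h
      rw [if_pos h, if_pos hrx]
      have e1 : √τ * min 1 √(l / 2 ^ (x - r)) = min (√τ) (√(τ * (l / 2 ^ (x - r)))) := by
        rw [mul_min_of_nonneg _ _ (Real.sqrt_nonneg _), mul_one, Real.sqrt_mul hτ]
      rw [e1]
      refine min_le_min le_rfl (Real.sqrt_le_sqrt ?_)
      have hx0 : (0 : ℝ) < s0 * 2 ^ x := by positivity
      have hlx : Real.log (1 + s0 * 2 ^ x) ≤ l := by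
        rw [hl]
        refine Real.log_le_log (by positivity) ?_
        have : (2 : ℝ) ^ x ≤ 2 ^ m := pow_le_pow_right₀ (by norm_num) hx.le
        nlinarith
      have hlx0 : 0 ≤ Real.log (1 + s0 * 2 ^ x) := Real.log_nonneg (by linarith)
      have e2 : (2 : ℝ) ^ x = 2 ^ (x - r) * 2 ^ r := by
        rw [← pow_add, Nat.sub_add_cancel hrx]
      rw [div_le_iff₀ hx0]
      have e3 : τ * (l / 2 ^ (x - r)) * (s0 * 2 ^ x) = τ * l * (s0 * 2 ^ r) := by
        rw [e2]
        field_simp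
      rw [e3]
      calc Y * τ * Real.log (1 + s0 * 2 ^ x) = τ * Real.log (1 + s0 * 2 ^ x) * Y := by ring
        _ ≤ τ * l * (s0 * 2 ^ r) :=
          mul_le_mul (mul_le_mul_of_nonneg_left hlx hτ) hr1.le hY (by positivity)
    · rw [if_neg h]
      split_ifs
      · exact hg0 _
      · exact le_rfl
  refine (Finset.sum_le_sum hterm).trans ?_
  have h5 : ∑ x ∈ Finset.range m, (if r ≤ x then √τ * min 1 √(l / 2 ^ (x - r)) else 0) ≤
      ∑ e ∈ Finset.range m, √τ * min 1 √(l / 2 ^ e) := by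
    have h6 : ∑ x ∈ Finset.range m, (if r ≤ x then √τ * min 1 √(l / 2 ^ (x - r)) else 0) ≤
        ∑ x ∈ Finset.range (r + m), (if r ≤ x then √τ * min 1 √(l / 2 ^ (x - r)) else 0) := by
      refine Finset.sum_le_sum_of_subset_of_nonneg ?_ (fun x _ _ => ?_)
      · intro e he
        rw [Finset.mem_range] at he ⊢
        omega
      · split_ifs
        · exact hg0 _
        · exact le_rfl
    rw [Finset.sum_range_add] at h6
    have h7 : ∑ x ∈ Finset.range r, (if r ≤ x then √τ * min 1 √(l / 2 ^ (x - r)) else 0) = 0 := by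
      refine Finset.sum_eq_zero (fun x hx => ?_)
      rw [Finset.mem_range] at hx
      rw [if_neg (by omega)]
    have h8 : ∑ x ∈ Finset.range m,
        (if r ≤ r + x then √τ * min 1 √(l / 2 ^ (r + x - r)) else 0) =
        ∑ e ∈ Finset.range m, √τ * min 1 √(l / 2 ^ e) := by
      refine Finset.sum_congr rfl (fun x _ => ?_)
      rw [if_pos (by omega), Nat.add_sub_cancel_left]
    rw [h7, h8, zero_add] at h6
    exact h6
  refine h5.trans ?_
  rw [← Finset.mul_sum]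
  exact mul_le_mul_of_nonneg_left (sum_min l hl1 m) (Real.sqrt_nonneg _)

end Pool.Agent.Helper68.BO
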